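import Pool.Agent.Helper99K9.EFM.Large
import Pool.Agent.Helper99K9.EFM.Cert2
import Pool.Agent.Helper99K9.EFM.Cert3
import Pool.Agent.Helper99K9.EFM.Cert4

/-!
There is a connected non-traceable graph (on ten vertices) that universally guarantees connected
EF1 (outer) allocations for all profiles of monotone valuations.

For at least five agents the allocation comes from a perfect matching between the clique and the
independent set of the split graph and local improvements; for two, three and four agents from
explicit chains of partitions modulo two and Sperner's parity argument.
-/

namespace Pool.Agent.Results.MP_7d34d8_co.NonTraceableUniversalMonotone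

open Pool.Agent.V11103.EF Pool.Agent.Helper99K9.EFM

/-- The ten-vertex graph `splitGraph` is connected, has no Hamiltonian path, and for every number
`n ≥ 1` of agents and every profile of monotone valuations it has a connected EF1 (outer)
allocation. -/
theorem result : splitGraph.Connected ∧ ¬ Traceable splitGraph ∧
    UniversallyGuarantees splitGraph := by
  refine ⟨connected_splitGraph, not_traceable, fun n h1 v hv => ?_⟩
  rcases Nat.lt_or_ge n 5 with h5 | h5
  · have : n = 1 ∨ n = 2 ∨ n = 3 ∨ n = 4 := by omega
    rcases this with rfl | rfl | rfl | rfl
    · exact one v
    · exact check_sound (by norm_num) chain2_ok v hv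
    · exact check_sound (by norm_num) chain3_ok v hv
    · exact check_sound (by norm_num) chain4_ok v hv
  · rcases Nat.lt_or_ge n 10 with h10 | h10
    · exact pick h5 h10.le v hv
    · exact large h10 v hv

end Pool.Agent.Results.MP_7d34d8_co.NonTraceableUniversalMonotone
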